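import Mathlib

set_option autoImplicit false

/-!
# The stabilizer of an operator on a tensor power of a space, and points of its torsors

For a rational operator `C` on the `k`-th tensor power of `ℚ ^ n` the group of the `x` whose tensor power commutes
with `C` is algebraic. If the conjugate of `C` by the tensor power of `P` has algebraic entries then `P T` is in this
group for some matrix `T` with algebraic entries (Nullstellensatz).
-/

open Matrix MvPolynomial

open scoped Kronecker Topology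

noncomputable section

namespace Pool.Agent.U400.SC

/-- the weak Nullstellensatz: equations solvable over an extension are solvable over `k` -/
theorem abs_null {k L τ : Type} [Field k] [Field L] [Algebra k L] [IsAlgClosed k] [Finite τ]
    (S : Set (MvPolynomial τ k)) (y : τ → L) (hy : ∀ p ∈ S, aeval y p = 0) :
    ∃ x : τ → k, ∀ p ∈ S, eval x p = 0 := by
  have hI : Ideal.span S ≠ ⊤ := by
    intro h
    have h1 : (1 : MvPolynomial τ k) ∈ Ideal.span S := h ▸ Submodule.mem_top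
    have h2 : Ideal.span S ≤ RingHom.ker (aeval y : MvPolynomial τ k →ₐ[k] L) :=
      Ideal.span_le.2 fun p hp => hy p hp
    have h3 := h2 h1
    rw [RingHom.mem_ker, map_one] at h3
    exact one_ne_zero h3
  obtain ⟨M, hM, hIM⟩ := Ideal.exists_le_maximal _ hI
  obtain ⟨x, hx⟩ := eq_vanishingIdeal_singleton_of_isMaximal (k := k) k hM
  refine ⟨x, fun p hp => ?_⟩
  have h1 : p ∈ M := hIM (Ideal.subset_span hp)
  rw [hx, mem_vanishingIdeal_singleton_iff] at h1
  simpa using h1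

variable {n : ℕ}

/-- the complex matrix of a rational matrix -/
abbrev cC {ι : Type} (C : Matrix ι ι ℚ) : Matrix ι ι ℂ := C.map fun q => (q : ℂ)

/-! ### Tensor powers of matrices -/

/-- The tensor power. -/
def tp {R : Type} [CommRing R] (k : ℕ) (X : Matrix (Fin n) (Fin n) R) :
    Matrix (Fin k → Fin n) (Fin k → Fin n) R := Matrix.of fun p q => ∏ i, X (p i) (q i)

theorem tp_apply {R : Type} [CommRing R] (k : ℕ) (X : Matrix (Fin n) (Fin n) R) (p q : Fin k → Fin n) :
    tp k X p q = ∏ i, X (p i) (q i) := rfl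

theorem tp_mul {R : Type} [CommRing R] (k : ℕ) (X Y : Matrix (Fin n) (Fin n) R) :
    tp k (X * Y) = tp k X * tp k Y := by
  ext p q
  rw [tp_apply, Matrix.mul_apply]
  simp only [Matrix.mul_apply, tp_apply]
  rw [Finset.prod_univ_sum, Fintype.piFinset_univ]
  exact Finset.sum_congr rfl fun c _ => Finset.prod_mul_distrib

theorem tp_one {R : Type} [CommRing R] (k : ℕ) : tp k (1 : Matrix (Fin n) (Fin n) R) = 1 := by
  ext p q
  rw [tp_apply, Matrix.one_apply]
  split_ifs with h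
  · subst h
    exact Finset.prod_eq_one fun i _ => Matrix.one_apply_eq _
  · obtain ⟨i, hi⟩ := Function.ne_iff.1 h
    exact Finset.prod_eq_zero (Finset.mem_univ i) (Matrix.one_apply_ne hi)

theorem tp_map {R S : Type} [CommRing R] [CommRing S] (f : R →+* S) (k : ℕ) (X : Matrix (Fin n) (Fin n) R) :
    (tp k X).map f = tp k (X.map f) := by
  ext p q
  rw [Matrix.map_apply, tp_apply, map_prod]
  rfl

/-! ### The stabilizer -/

variable {k : ℕ}

/-- The stabilizer of an operator on the tensor power. -/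
def stabC (C : Matrix (Fin k → Fin n) (Fin k → Fin n) ℚ) : Subgroup (GL (Fin n) ℂ) where
  carrier := {x | tp k (x : Matrix (Fin n) (Fin n) ℂ) * cC C = cC C * tp k (x : Matrix (Fin n) (Fin n) ℂ)}
  one_mem' := by
    change tp k ((1 : GL (Fin n) ℂ) : Matrix (Fin n) (Fin n) ℂ) * cC C =
      cC C * tp k ((1 : GL (Fin n) ℂ) : Matrix (Fin n) (Fin n) ℂ)
    rw [Units.val_one, tp_one, one_mul, mul_one]
  mul_mem' := by
    intro x y hx hy
    change tp k ((x * y : GL (Fin n) ℂ) : Matrix (Fin n) (Fin n) ℂ) * cC C =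
      cC C * tp k ((x * y : GL (Fin n) ℂ) : Matrix (Fin n) (Fin n) ℂ)
    change _ = _ at hx
    change _ = _ at hy
    rw [Units.val_mul, tp_mul, mul_assoc, hy, ← mul_assoc, hx, mul_assoc]
  inv_mem' := by
    intro x hx
    change tp k ((x⁻¹ : GL (Fin n) ℂ) : Matrix (Fin n) (Fin n) ℂ) * cC C =
      cC C * tp k ((x⁻¹ : GL (Fin n) ℂ) : Matrix (Fin n) (Fin n) ℂ)
    change _ = _ at hx
    set X : Matrix (Fin n) (Fin n) ℂ := (x : Matrix (Fin n) (Fin n) ℂ) with hX
    set Y : Matrix (Fin n) (Fin n) ℂ := ((x⁻¹ : GL (Fin n) ℂ) : Matrix (Fin n) (Fin n) ℂ) with hY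
    have h1 : X * Y = 1 := x.val_inv
    have h2 : Y * X = 1 := x.inv_val
    have h3 : tp k Y * tp k X = 1 := by
      rw [← tp_mul, h2, tp_one]
    have h4 : tp k X * tp k Y = 1 := by
      rw [← tp_mul, h1, tp_one]
    calc tp k Y * cC C = tp k Y * (cC C * (tp k X * tp k Y)) := by rw [h4, mul_one]
      _ = tp k Y * ((cC C * tp k X) * tp k Y) := by rw [mul_assoc]
      _ = tp k Y * ((tp k X * cC C) * tp k Y) := by rw [hx]
      _ = (tp k Y * tp k X) * (cC C * tp k Y) := by simp only [mul_assoc]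
      _ = cC C * tp k Y := by rw [h3, one_mul]

theorem mem_stabC {C : Matrix (Fin k → Fin n) (Fin k → Fin n) ℚ} {x : GL (Fin n) ℂ} :
    x ∈ stabC C ↔ tp k (x : Matrix (Fin n) (Fin n) ℂ) * cC C =
      cC C * tp k (x : Matrix (Fin n) (Fin n) ℂ) := Iff.rfl

/-- The equations `X^{⊗ k} D = D' X^{⊗ k}`. -/
def eqs {F σ : Type} [Field F] (v : Fin n × Fin n → σ) (D D' : Matrix (Fin k → Fin n) (Fin k → Fin n) F)
    (p q : Fin k → Fin n) : MvPolynomial σ F :=
  ∑ c : Fin k → Fin n, (∏ i, X (v (p i, c i))) * MvPolynomial.C (D c q) -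
    ∑ c : Fin k → Fin n, MvPolynomial.C (D' p c) * ∏ i, X (v (c i, q i))

theorem aeval_eqs {F L σ : Type} [Field F] [Field L] [Algebra F L] (v : Fin n × Fin n → σ)
    (D D' : Matrix (Fin k → Fin n) (Fin k → Fin n) F) (p q : Fin k → Fin n) (y : σ → L)
    (M : Matrix (Fin n) (Fin n) L) (hM : ∀ i j, y (v (i, j)) = M i j) :
    aeval y (eqs v D D' p q) = (tp k M * D.map (algebraMap F L)) p q -
      (D'.map (algebraMap F L) * tp k M) p q := by
  unfold eqs
  rw [map_sub, map_sum, map_sum, Matrix.mul_apply, Matrix.mul_apply]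
  congr 1
  · refine Finset.sum_congr rfl fun c _ => ?_
    rw [map_mul, map_prod, aeval_C, tp_apply, Matrix.map_apply]
    congr 1
    exact Finset.prod_congr rfl fun i _ => by rw [aeval_X, hM]
  · refine Finset.sum_congr rfl fun c _ => ?_
    rw [map_mul, map_prod, aeval_C, tp_apply, Matrix.map_apply]
    congr 1
    exact Finset.prod_congr rfl fun i _ => by rw [aeval_X, hM]

theorem alg_stabC (C : Matrix (Fin k → Fin n) (Fin k → Fin n) ℚ) :
    ∃ I : Set (MvPolynomial (Fin n × Fin n) ℚ), ∀ x : GL (Fin n) ℂ, x ∈ stabC C ↔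
      ∀ p ∈ I, aeval (fun b : Fin n × Fin n => (x : Matrix (Fin n) (Fin n) ℂ) b.1 b.2) p = 0 := by
  refine ⟨{e | ∃ p q, e = eqs (n := n) id C C p q}, fun x => ?_⟩
  have key : ∀ p q, aeval (fun b : Fin n × Fin n => (x : Matrix (Fin n) (Fin n) ℂ) b.1 b.2)
      (eqs (n := n) id C C p q) = (tp k (x : Matrix (Fin n) (Fin n) ℂ) * cC C) p q -
        (cC C * tp k (x : Matrix (Fin n) (Fin n) ℂ)) p q := fun p q =>
    aeval_eqs id C C p q _ _ fun i j => rfl
  rw [mem_stabC]
  constructor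
  · rintro h _ ⟨p, q, rfl⟩
    rw [key, h, sub_self]
  · intro h
    ext p q
    have h1 := h _ ⟨p, q, rfl⟩
    rw [key] at h1
    exact sub_eq_zero.1 h1

/-- A point of the torsor over the algebraic numbers. -/
theorem exists_torsor {C : Matrix (Fin k → Fin n) (Fin k → Fin n) ℚ} {P : Matrix (Fin n) (Fin n) ℂ}
    (hP : P.det ≠ 0)
    (hC : ∀ p q, IsAlgebraic ℚ ((tp k P⁻¹ * cC C * tp k P) p q)) :
    ∃ T : Matrix (Fin n) (Fin n) ℂ, (∀ i j, IsAlgebraic ℚ (T i j)) ∧
      ∃ x ∈ stabC C, (x : Matrix (Fin n) (Fin n) ℂ) = P * T := by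
  classical
  let K : IntermediateField ℚ ℂ := algebraicClosure ℚ ℂ
  have : IsAlgClosed K := (algebraicClosure.isAlgClosure ℚ ℂ).isAlgClosed
  have hu : IsUnit P.det := isUnit_iff_ne_zero.2 hP
  have hPi := Matrix.mul_nonsing_inv P hu
  have hPj := Matrix.nonsing_inv_mul P hu
  set E : Matrix (Fin k → Fin n) (Fin k → Fin n) ℂ := tp k P⁻¹ * cC C * tp k P with hE
  let E' : Matrix (Fin k → Fin n) (Fin k → Fin n) K :=
    Matrix.of fun p q => ⟨E p q, mem_algebraicClosure_iff.2 (hC p q)⟩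
  have hE' : E'.map (algebraMap K ℂ) = E := by
    ext p q
    rfl
  let CK : Matrix (Fin k → Fin n) (Fin k → Fin n) K := C.map (algebraMap ℚ K)
  have hCK : CK.map (algebraMap K ℂ) = cC C := by
    ext p q
    exact (IsScalarTower.algebraMap_apply ℚ K ℂ (C p q)).symm
  let v : Fin n × Fin n → (Fin n × Fin n) ⊕ (Fin n × Fin n) := Sum.inl
  let S : Set (MvPolynomial ((Fin n × Fin n) ⊕ (Fin n × Fin n)) K) :=
    {e | (∃ p q, e = eqs v CK E' p q) ∨ ∃ i j, e = ∑ l, X (Sum.inl (i, l)) * X (Sum.inr (l, j)) -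
      MvPolynomial.C ((1 : Matrix (Fin n) (Fin n) K) i j)}
  let y : (Fin n × Fin n) ⊕ (Fin n × Fin n) → ℂ := Sum.elim (fun b => P⁻¹ b.1 b.2) (fun b => P b.1 b.2)
  obtain ⟨x, hx⟩ := abs_null S y (by
    rintro _ (⟨p, q, rfl⟩ | ⟨i, j, rfl⟩)
    · rw [aeval_eqs v CK E' p q y P⁻¹ fun i j => rfl, hCK, hE', hE]
      have h1 : tp k P * tp k P⁻¹ = 1 := by
        rw [← tp_mul, hPi, tp_one]
      rw [mul_assoc (tp k P⁻¹ * cC C), h1, mul_one, sub_self]
    · rw [map_sub, map_sum, aeval_C]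
      have h1 : ∀ l, aeval y (X (Sum.inl (i, l)) * X (Sum.inr (l, j)) :
          MvPolynomial ((Fin n × Fin n) ⊕ (Fin n × Fin n)) K) = P⁻¹ i l * P l j := fun l => by
        rw [map_mul, aeval_X, aeval_X]
        rfl
      rw [Finset.sum_congr rfl fun l _ => h1 l, ← Matrix.mul_apply, hPj]
      have h2 : algebraMap K ℂ ((1 : Matrix (Fin n) (Fin n) K) i j) = (1 : Matrix (Fin n) (Fin n) ℂ) i j := by
        rw [Matrix.one_apply, Matrix.one_apply]
        split_ifs
        · exact map_one _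
        · exact map_zero _
      rw [h2, sub_self])
  let TK : Matrix (Fin n) (Fin n) K := Matrix.of fun i j => x (Sum.inl (i, j))
  let TK' : Matrix (Fin n) (Fin n) K := Matrix.of fun i j => x (Sum.inr (i, j))
  have hTT : TK * TK' = 1 := by
    ext i j : 1
    have h1 := hx _ (Or.inr ⟨i, j, rfl⟩)
    rw [map_sub, map_sum, eval_C, sub_eq_zero] at h1
    rw [Matrix.mul_apply, ← h1]
    refine Finset.sum_congr rfl fun l _ => ?_
    rw [map_mul, eval_X, eval_X]
    rfl
  have hTC : tp k TK * CK = E' * tp k TK := by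
    ext p q : 1
    have h1 := hx _ (Or.inl ⟨p, q, rfl⟩)
    have h2 := aeval_eqs v CK E' p q x TK fun i j => rfl
    have e : ∀ M : Matrix (Fin k → Fin n) (Fin k → Fin n) K, M.map (algebraMap K K) = M := fun M => by
      ext
      rfl
    rw [e, e] at h2
    rw [← sub_eq_zero, ← h2]
    exact h1
  let T : Matrix (Fin n) (Fin n) ℂ := TK.map (algebraMap K ℂ)
  let T' : Matrix (Fin n) (Fin n) ℂ := TK'.map (algebraMap K ℂ)
  have h1 : T * T' = 1 := by
    change TK.map (algebraMap K ℂ) * TK'.map (algebraMap K ℂ) = 1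
    rw [← Matrix.map_mul, hTT, Matrix.map_one _ (map_zero _) (map_one _)]
  have h1' : T' * T = 1 := mul_eq_one_comm.1 h1
  have h2 : tp k T * cC C = E * tp k T := by
    have h3 := congrArg (fun M : Matrix (Fin k → Fin n) (Fin k → Fin n) K => M.map (algebraMap K ℂ)) hTC
    simp only [Matrix.map_mul] at h3
    rw [tp_map, hCK, hE'] at h3
    exact h3
  refine ⟨T, fun i j => mem_algebraicClosure_iff.1 (TK i j).2,
    ⟨P * T, T' * P⁻¹, ?_, ?_⟩, ?_, rfl⟩
  · rw [mul_assoc, ← mul_assoc T, h1, one_mul, hPi]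
  · rw [mul_assoc, ← mul_assoc P⁻¹, hPj, one_mul, h1']
  · rw [mem_stabC]
    change tp k (P * T) * cC C = cC C * tp k (P * T)
    have h5 : tp k P * tp k P⁻¹ = 1 := by
      rw [← tp_mul, hPi, tp_one]
    have h6 : tp k P * E = cC C * tp k P := by
      rw [hE, ← mul_assoc, ← mul_assoc, h5, one_mul]
    rw [tp_mul, mul_assoc, h2, ← mul_assoc, h6, mul_assoc]

/-! ### The square -/

/-- The operator on the second tensor power of an operator on the product. -/
def toTwo {R : Type} (C : Matrix (Fin n × Fin n) (Fin n × Fin n) R) :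
    Matrix (Fin 2 → Fin n) (Fin 2 → Fin n) R := Matrix.of fun p q => C (p 0, p 1) (q 0, q 1)

theorem toTwo_inj {R : Type} {C D : Matrix (Fin n × Fin n) (Fin n × Fin n) R} (h : toTwo C = toTwo D) :
    C = D := by
  ext ⟨i, k⟩ ⟨j, l⟩
  have h1 := congrFun (congrFun h ![i, k]) ![j, l]
  exact h1

theorem toTwo_mul {R : Type} [CommRing R] (C D : Matrix (Fin n × Fin n) (Fin n × Fin n) R) :
    toTwo (C * D) = toTwo C * toTwo D := by
  ext p q
  unfold toTwo
  rw [Matrix.of_apply, Matrix.mul_apply, Matrix.mul_apply]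
  refine Fintype.sum_equiv (finTwoArrowEquiv (Fin n)).symm _ _ fun c => ?_
  simp [finTwoArrowEquiv]

theorem toTwo_kr {R : Type} [CommRing R] (X : Matrix (Fin n) (Fin n) R) : toTwo (X ⊗ₖ X) = tp 2 X := by
  ext p q
  rw [tp_apply, Fin.prod_univ_two]
  rfl

/-! ### Derivatives of exponentials -/

/-- The action on the tensor square. -/
def op2' (M : Matrix (Fin n) (Fin n) ℂ) : Matrix (Fin n × Fin n) (Fin n × Fin n) ℂ := M ⊗ₖ 1 + 1 ⊗ₖ M

open scoped Matrix.Norms.Operator in
theorem hasDerivAt_exp_entry (M : Matrix (Fin n) (Fin n) ℂ) (i j : Fin n) :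
    HasDerivAt (fun t : ℝ => NormedSpace.exp ((t : ℂ) • M) i j) (M i j) 0 := by
  have h1 : HasDerivAt (fun t : ℝ => NormedSpace.exp (t • M)) (NormedSpace.exp ((0 : ℝ) • M) * M) 0 :=
    hasDerivAt_exp_smul_const (𝕂 := ℝ) M (0 : ℝ)
  rw [zero_smul, NormedSpace.exp_zero, one_mul] at h1
  have h2 : HasDerivAt (fun t : ℝ => (Matrix.entryLinearMap ℝ ℂ i j : Matrix (Fin n) (Fin n) ℂ →ₗ[ℝ] ℂ).toContinuousLinearMap
      (NormedSpace.exp (t • M))) ((Matrix.entryLinearMap ℝ ℂ i j : Matrix (Fin n) (Fin n) ℂ →ₗ[ℝ] ℂ).toContinuousLinearMap M) 0 :=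
    (ContinuousLinearMap.hasFDerivAt _).comp_hasDerivAt (0 : ℝ) h1
  exact h2

theorem comm_of_exp (M : Matrix (Fin n) (Fin n) ℂ) (C : Matrix (Fin n × Fin n) (Fin n × Fin n) ℂ)
    (h : ∀ᶠ t : ℝ in 𝓝 0, (NormedSpace.exp ((t : ℂ) • M) ⊗ₖ NormedSpace.exp ((t : ℂ) • M)) * C =
      C * (NormedSpace.exp ((t : ℂ) • M) ⊗ₖ NormedSpace.exp ((t : ℂ) • M))) :
    op2' M * C = C * op2' M := by
  have hk : ∀ p q : Fin n × Fin n, HasDerivAt (fun t : ℝ =>
      (NormedSpace.exp ((t : ℂ) • M) ⊗ₖ NormedSpace.exp ((t : ℂ) • M)) p q) (op2' M p q) 0 := by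
    rintro ⟨i, k⟩ ⟨j, l⟩
    have h1 := (hasDerivAt_exp_entry M i j).mul (hasDerivAt_exp_entry M k l)
    have h0 : NormedSpace.exp (((0 : ℝ) : ℂ) • M) = 1 := by
      rw [Complex.ofReal_zero, zero_smul, NormedSpace.exp_zero]
    simp only [h0] at h1
    exact h1
  have hl : ∀ p q : Fin n × Fin n, HasDerivAt (fun t : ℝ =>
      ((NormedSpace.exp ((t : ℂ) • M) ⊗ₖ NormedSpace.exp ((t : ℂ) • M)) * C) p q) ((op2' M * C) p q) 0 := by
    intro p q
    simp only [Matrix.mul_apply]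
    exact HasDerivAt.fun_sum fun c _ => (hk p c).mul_const _
  have hr : ∀ p q : Fin n × Fin n, HasDerivAt (fun t : ℝ =>
      (C * (NormedSpace.exp ((t : ℂ) • M) ⊗ₖ NormedSpace.exp ((t : ℂ) • M))) p q) ((C * op2' M) p q) 0 := by
    intro p q
    simp only [Matrix.mul_apply]
    exact HasDerivAt.fun_sum fun c _ => (hk c q).const_mul _
  ext p q
  refine (hl p q).unique ((hr p q).congr_of_eventuallyEq ?_)
  filter_upwards [h] with t ht
  rw [ht]

end Pool.Agent.U400.SC
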