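import Pool.Agent.N208.TS.Main
import Pool.Agent.U400.SC.Stab

set_option autoImplicit false
set_option linter.unusedSectionVars false

/-!
# The action of the Deligne torus on a motive of abelian type and its derivative
-/

open Module Function TensorProduct Matrix

open scoped Kronecker Topology

noncomputable section

namespace Pool.Agent.U400.SC

open Pool.Agent.Y102 Pool.Agent.W516.DR Pool.Agent.H204R3.GP Pool.Agent.W516.KC
  Pool.Agent.H204R3.SP Pool.Agent.TH119.MX Pool.Agent.R917 Pool.Agent.N208.AM Pool.Agent.N208.AD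
  Pool.Agent.N208.TS

variable {g : ℕ} {A : AbVar g} {s n : ℕ} {r : Fin s → ℕ} {B : Fin n → Ten A r} {w : Fin s → ℤ}
  {P : Matrix (Fin n) (Fin n) ℂ} {Wt : Matrix (Fin n) (Fin n) ℚ}
  {H : Set (Matrix (Fin n) (Fin n) ℂ)} {N : Matrix (Fin n) (Fin n) ℝ}

theorem cm2_of_complex {R : Type} [CommRing R] (f : R →+* ℂ) (hf : Function.Injective f)
    (M : Matrix (Fin n) (Fin n) R) (C : Matrix (Fin n × Fin n) (Fin n × Fin n) R)
    (h : op2' (M.map f) * C.map f = C.map f * op2' (M.map f)) : cm2 M C = 0 := by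
  have e : op2' (M.map f) = (op2 M).map f := by
    unfold op2' op2
    ext ⟨i, k⟩ ⟨j, l⟩
    rw [Matrix.add_apply, Matrix.map_apply, Matrix.add_apply, Matrix.kronecker_apply,
      Matrix.kronecker_apply, Matrix.kronecker_apply, Matrix.kronecker_apply, Matrix.map_apply,
      Matrix.map_apply, map_add, map_mul, map_mul]
    have h1 : ∀ a b : Fin n, f ((1 : Matrix (Fin n) (Fin n) R) a b) =
        (1 : Matrix (Fin n) (Fin n) ℂ) a b := by
      intro a b
      rw [Matrix.one_apply, Matrix.one_apply]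
      split_ifs
      · exact map_one f
      · exact map_zero f
    rw [h1, h1]
  rw [e, ← Matrix.map_mul, ← Matrix.map_mul] at h
  unfold cm2
  ext p q
  rw [Matrix.sub_apply, Matrix.zero_apply, sub_eq_zero]
  apply hf
  exact congrFun (congrFun h p) q

/-! ### The Deligne torus -/

/-- The matrix of the action of a complex number is unique. -/
theorem hrel_uniq (h : Mot w B P) {z : ℂ} (hz : z ≠ 0) {R R' : Matrix (Fin n) (Fin n) ℂ}
    (hR : HRel w B z R) (hR' : HRel w B z R') : R = R' := by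
  ext b a
  rw [← sub_eq_zero]
  refine eq_zero_of_dual (k := ℚ) fun lam => ?_
  have h1 : (fun b => lam (R b a - R' b a)) = fun _ => 0 := by
    refine eq_of_comb h.li fun i => ?_
    have h2 : ∑ b, (0 : ℚ) • B b i = 0 := by simp
    rw [h2]
    refine Basis.ext_multilinear (fun _ => Pi.basisFun ℚ (Fin (2 * g))) fun j => ?_
    have h3 := (hR a i j).symm.trans (hR' a i j)
    have hz2 : ((z * (starRingEnd ℂ) z) ^ (w i) : ℂ) ≠ 0 := by
      refine zpow_ne_zero _ (mul_ne_zero hz ?_)
      exact (map_ne_zero _).2 hz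
    have h4 := mul_left_cancel₀ hz2 h3
    have h5 : ∑ b, (R b a - R' b a) * ((B b i (fun k => A.bas (j k)) : ℚ) : ℂ) = 0 := by
      simp only [sub_mul, Finset.sum_sub_distrib]
      rw [h4, sub_self]
    have h6 := congrArg lam h5
    rw [map_sum, map_zero] at h6
    rw [_root_.sum_apply]
    have h7 : ∀ b, (lam (R b a - R' b a) • B b i) (fun k => Pi.basisFun ℚ (Fin (2 * g)) (j k)) =
        lam ((R b a - R' b a) * ((B b i (fun k => A.bas (j k)) : ℚ) : ℂ)) := by
      intro b
      rw [lam_rat]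
      rfl
    rw [Finset.sum_congr rfl fun b _ => h7 b, h6]
    rfl
  exact congrFun h1 b

theorem KK_circle {t : ℝ} (ht : |t| < Real.pi) :
    KK Wt N (Complex.exp (t * Complex.I)) = (t : ℂ) • cxm N := by
  unfold KK
  have h1 : ‖Complex.exp (t * Complex.I)‖ = 1 := Complex.norm_exp_ofReal_mul_I t
  have h2 : Complex.arg (Complex.exp (t * Complex.I)) = t := by
    rw [Complex.exp_mul_I]
    exact Complex.arg_cos_add_sin_mul_I ⟨(abs_lt.1 ht).1, (abs_lt.1 ht).2.le⟩
  rw [h1, h2, Real.log_one, Complex.ofReal_zero, zero_smul, zero_add]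

/-- A class which is respected by the Deligne torus commutes with the complex structure. -/
theorem cm2_N (hW : WRel w B Wt) (hN : RelR B AbVar.JJ N)
    {C : Matrix (Fin n × Fin n) (Fin n × Fin n) ℚ}
    (hC : ∀ z : ℂ, z ≠ 0 → ∀ R, HRel w B z R → (R ⊗ₖ R) * cC C = cC C * (R ⊗ₖ R)) :
    cm2 N (C.map fun x => (x : ℝ)) = 0 := by
  refine cm2_of_complex Complex.ofRealHom Complex.ofRealHom.injective N _ ?_
  have e : (C.map fun x => (x : ℝ)).map Complex.ofRealHom = cC C := by
    ext p q
    simp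
  rw [e]
  refine comm_of_exp _ _ ?_
  have h1 : ∀ᶠ t : ℝ in 𝓝 0, |t| < Real.pi := by
    have h2 : Filter.Tendsto (fun t : ℝ => |t|) (𝓝 0) (𝓝 |0|) := continuous_abs.continuousAt
    rw [abs_zero] at h2
    exact h2.eventually (gt_mem_nhds Real.pi_pos)
  filter_upwards [h1] with t ht
  have hz : Complex.exp (t * Complex.I) ≠ 0 := Complex.exp_ne_zero _
  have h2 := hC _ hz _ (hrel_exp hW hN hz)
  rw [KK_circle ht] at h2
  exact h2

end Pool.Agent.U400.SC
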